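import Pool.Agent.H24.P35.Targets

/-!
# PDI: the autocorrelation near zero
-/

set_option autoImplicit false

open Finset Filter Pool.Agent.H88.PD Pool.Agent.H24.P35

namespace Pool.Agent.H17.P35

theorem cor_diff {G : Type} [AddCommGroup G] [Fintype G] (f : G → ℝ) (x : G) :
    ∑ y, (f y - f (y + x)) ^ 2 = 2 * (cor f 0 - cor f x) := by
  have h1 : ∑ y, f (y + x) ^ 2 = ∑ y, f y ^ 2 :=
    Equiv.sum_comp (Equiv.addRight x) (fun y => f y ^ 2)
  have h2 : cor f 0 = ∑ y, f y ^ 2 := by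
    unfold cor
    refine sum_congr rfl fun y _ => ?_
    rw [add_zero, sq]
  have h3 : ∑ y, (f y - f (y + x)) ^ 2 =
      ∑ y, f y ^ 2 - 2 * ∑ y, f y * f (y + x) + ∑ y, f (y + x) ^ 2 := by
    rw [mul_sum, ← sum_sub_distrib, ← sum_add_distrib]
    refine sum_congr rfl fun y _ => ?_
    ring
  have h4 : cor f x = ∑ y, f y * f (y + x) := rfl
  rw [h3, h1, h2, h4]
  ring

theorem pf_PDI : T_PDI := by
  intro G _ _ f x j
  have h0 := cor_diff f x
  have hn : 0 ≤ ∑ y, (f y - f (y + x)) ^ 2 := sum_nonneg fun y _ => sq_nonneg _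
  refine ⟨by linarith, ?_⟩
  have h1 : ∀ y, (f y - f (y + j • x)) ^ 2 ≤
      j * ∑ i ∈ range j, (f (y + i • x) - f (y + (i + 1) • x)) ^ 2 := by
    intro y
    have e : f y - f (y + j • x) = ∑ i ∈ range j, (f (y + i • x) - f (y + (i + 1) • x)) := by
      rw [sum_range_sub' (fun i => f (y + i • x)) j, zero_smul, add_zero]
    rw [e]
    have := sq_sum_le_card_mul_sum_sq (s := range j)
      (f := fun i => f (y + i • x) - f (y + (i + 1) • x))
    rwa [card_range] at this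
  have h2 : ∀ i : ℕ, ∑ y, (f (y + i • x) - f (y + (i + 1) • x)) ^ 2 =
      ∑ y, (f y - f (y + x)) ^ 2 := by
    intro i
    have := Equiv.sum_comp (Equiv.addRight (i • x)) (fun y => (f y - f (y + x)) ^ 2)
    rw [← this]
    refine sum_congr rfl fun y _ => ?_
    rw [add_smul, one_smul, ← add_assoc]
    rfl
  have h3 : ∑ y, (f y - f (y + j • x)) ^ 2 ≤ (j : ℝ) ^ 2 * ∑ y, (f y - f (y + x)) ^ 2 := by
    calc ∑ y, (f y - f (y + j • x)) ^ 2
        ≤ ∑ y, (j : ℝ) * ∑ i ∈ range j, (f (y + i • x) - f (y + (i + 1) • x)) ^ 2 :=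
          sum_le_sum fun y _ => h1 y
      _ = j * ∑ i ∈ range j, ∑ y, (f (y + i • x) - f (y + (i + 1) • x)) ^ 2 := by
          rw [← mul_sum, sum_comm]
      _ = j * ∑ i ∈ range j, ∑ y, (f y - f (y + x)) ^ 2 := by
          simp_rw [h2]
      _ = (j : ℝ) ^ 2 * ∑ y, (f y - f (y + x)) ^ 2 := by
          rw [sum_const, card_range, nsmul_eq_mul]
          ring
  rw [cor_diff, h0] at h3
  linarith

end Pool.Agent.H17.P35
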